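import Pool.Agent.H79.NA7

/-! The half cone is locally connected by analytic paths but is not a Nash approximation target. -/

open Pool.Agent.H79.NA

theorem Pool.Agent.Results.MP_1c24b6_ag.HalfCone.result :
    (halfCone.Nonempty ∧ SASet halfCone ∧ LocConnAn halfCone ∧ ¬ ATS halfCone) ∧
      ¬ ∀ n, 1 ≤ n → ∀ T : Set (Euc n), T.Nonempty → SASet T → LocConnAn T → ATS T := by
  have h : halfCone.Nonempty := ⟨_, ψ_mem 1 0 0⟩
  exact ⟨⟨h, sa_halfCone, locConn, not_ats⟩,
    fun H => not_ats (H 3 (by norm_num) _ h sa_halfCone locConn)⟩
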